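import Mathlib

set_option autoImplicit false

/-!
# Exact realisation of conditional prefix complexity functions is not always possible

There is an admissible (integer-valued, upper semicomputable, with `∑_x 2^{-K(x|y)} ≤ 1` for every
`y`) function `K` which is not the complexity function of any prefix-free conditional algorithm and
not the complexity function of any prefix-stable conditional algorithm. Both parts of Q1 have a
negative answer.

For the condition `y` with number `e` we play against the `e`-th algorithm: four strings get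
`K = 3`. When the algorithm has presented programs of length `3` for them, one of them, chosen
depending on the first bits of the programs, gets `K = 1`.
-/

namespace Pool.Agent.Results.MP_6b7d8e_lc.NoExactConditional

open Nat.Partrec (Code)
open Nat.Partrec.Code Encodable Denumerable
open scoped ENNReal

/-- Binary strings. -/
abbrev Str : Type := List Bool

/-- The complexity function `C_U(x | y) = min {|p| : U(p, y) = x}`, the minimum of the empty set
being `⊤`. -/
noncomputable def CU (U : Str × Str →. Str) (x y : Str) : ℕ∞ :=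
  ⨅ p ∈ {p : Str | x ∈ U (p, y)}, (p.length : ℕ∞)

/-- `U` is prefix-free: for every condition there are no two different programs, one a prefix of the
other, on which `U` is defined. -/
def PrefixFree (U : Str × Str →. Str) : Prop :=
  ∀ y p p', p ≠ p' → p <+: p' → ¬ ((U (p, y)).Dom ∧ (U (p', y)).Dom)

/-- `U` is prefix-stable: `U(p, y) = x` implies `U(p', y) = x` for every extension `p'` of `p`. -/
def PrefixStable (U : Str × Str →. Str) : Prop :=
  ∀ y p p' x, p <+: p' → x ∈ U (p, y) → x ∈ U (p', y)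

/-- `K` is the limit of a uniformly computable sequence of total functions which is not
increasing. -/
def UpperSemicomputable (K : Str → Str → ℕ) : Prop :=
  ∃ Kn : ℕ → Str → Str → ℕ, Computable (fun q : ℕ × Str × Str => Kn q.1 q.2.1 q.2.2) ∧
    (∀ n x y, Kn (n + 1) x y ≤ Kn n x y) ∧ ∀ x y, ∃ N, ∀ n ≥ N, Kn n x y = K x y

/-- Admissible functions. (The condition on the sum forces integer values to be nonnegative, so
that the values are natural numbers.) -/
def Admissible (K : Str → Str → ℕ) : Prop :=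
  UpperSemicomputable K ∧ ∀ y, ∑' x : Str, (2⁻¹ : ℝ≥0∞) ^ (K x y) ≤ 1

/-! ### the function -/

/-- four programs -/
abbrev Tup : Type := Str × Str × Str × Str

/-- the special strings -/
def xs (j : ℕ) : Str := List.replicate j true

theorem xs_injective : Function.Injective xs := fun a b h => by
  simpa [xs] using congrArg List.length h

/-- `p` has length `3` and the algorithm `c` produces the string `xs j` from `p` and `y` within
`k` steps -/
def Chk (c : Code) (y : Str) (k : ℕ) (p : Str) (j : ℕ) : Prop :=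
  p.length = 3 ∧ evaln k c (encode (p, y)) = some (encode (xs j))

instance (c : Code) (y : Str) (k : ℕ) (p : Str) (j : ℕ) : Decidable (Chk c y k p j) := by
  unfold Chk; infer_instance

/-- a number of steps and four programs coded by `m` -/
def dT (m : ℕ) : ℕ × Tup := (decode (α := ℕ × Tup) m).getD (0, [], [], [], [])

/-- `m` codes a number of steps and four programs for the first four special strings -/
def G (y : Str) (m : ℕ) : Prop :=
  Chk (ofNat Code y.length) y (dT m).1 (dT m).2.1 0 ∧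
  Chk (ofNat Code y.length) y (dT m).1 (dT m).2.2.1 1 ∧
  Chk (ofNat Code y.length) y (dT m).1 (dT m).2.2.2.1 2 ∧
  Chk (ofNat Code y.length) y (dT m).1 (dT m).2.2.2.2 3

instance (y : Str) (m : ℕ) : Decidable (G y m) := by unfold G; infer_instance

/-- the chosen string -/
def ix (m : ℕ) : ℕ :=
  if (dT m).2.1.head? = (dT m).2.2.1.head? then 0 else 2

/-- initial values -/
def K0 (x : Str) : ℕ := if x = xs 0 ∨ x = xs 1 ∨ x = xs 2 ∨ x = xs 3 then 3 else encode x + 5

/-- final values -/
def K1 (i : ℕ) (x : Str) : ℕ := if x = xs i then 1 else K0 x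

/-- one step of the search -/
def stp (y : Str) (q : ℕ × Option ℕ) : Option ℕ :=
  if q.2.isSome = true then q.2 else if G y q.1 then some q.1 else none

/-- the result of the search after `n` steps -/
def s (y : Str) (n : ℕ) : Option ℕ := Nat.rec none (fun n IH => stp y (n, IH)) n

/-- the approximations -/
def Kn (n : ℕ) (x y : Str) : ℕ :=
  if (s y n).isSome = true then K1 (ix ((s y n).getD 0)) x else K0 x

open Classical in
/-- the function -/
noncomputable def K (x y : Str) : ℕ :=
  if h : ∃ m, G y m then K1 (ix (Nat.find h)) x else K0 x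

theorem s_succ (y : Str) (n : ℕ) : s y (n + 1) = stp y (n, s y n) := rfl

theorem s_none {y : Str} {n : ℕ} (h : ∀ m < n, ¬ G y m) : s y n = none := by
  induction n with
  | zero => rfl
  | succ n ih =>
    rw [s_succ, ih (fun m hm => h m (by omega))]
    simp [stp, h n (by omega)]

theorem s_some {y : Str} {m : ℕ} (hm : G y m) (hmin : ∀ m' < m, ¬ G y m') {n : ℕ} (hn : m < n) :
    s y n = some m := by
  obtain ⟨d, rfl⟩ := Nat.exists_eq_add_of_lt hn
  clear hn
  induction d with
  | zero =>
    rw [Nat.add_zero, s_succ, s_none hmin]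
    simp [stp, hm]
  | succ d ih =>
    rw [← add_assoc, s_succ, ih]
    simp [stp]

theorem K1_le (i : ℕ) (x : Str) : K1 i x ≤ K0 x := by
  unfold K1 K0
  split_ifs <;> omega

theorem Kn_anti (n : ℕ) (x y : Str) : Kn (n + 1) x y ≤ Kn n x y := by
  unfold Kn
  rw [s_succ]
  rcases hs : s y n with _ | m
  · rw [if_neg (by simp : ¬ ((none : Option ℕ).isSome = true))]
    split_ifs
    · exact K1_le _ _
    · exact le_rfl
  · have : stp y (n, some m) = some m := by simp [stp]
    rw [this]

theorem Kn_lim (x y : Str) : ∃ N, ∀ n ≥ N, Kn n x y = K x y := by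
  classical
  by_cases h : ∃ m, G y m
  · refine ⟨Nat.find h + 1, fun n hn => ?_⟩
    have := s_some (Nat.find_spec h) (fun m' hm' => Nat.find_min h hm') (n := n) (by omega)
    unfold Kn K
    rw [this, dif_pos h]
    simp
  · refine ⟨0, fun n _ => ?_⟩
    have : s y n = none := s_none fun m _ hm => h ⟨m, hm⟩
    unfold Kn K
    rw [this, dif_neg h]
    simp

/-! ### computability -/

theorem xs_primrec : Primrec xs := by
  have h : Primrec (fun j : ℕ => (List.range j).map fun _ => true) :=
    Primrec.list_map Primrec.list_range (Primrec.const true).to₂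
  refine h.of_eq fun j => ?_
  unfold xs
  rw [List.map_const', List.length_range]

theorem K0_primrec : Primrec K0 := by
  have h : ∀ j : ℕ, PrimrecPred (fun x : Str => x = xs j) := fun j =>
    Primrec.eq.comp Primrec.id (Primrec.const _)
  exact Primrec.ite ((h 0).or ((h 1).or ((h 2).or (h 3)))) (Primrec.const 3)
    (Primrec.nat_add.comp Primrec.encode (Primrec.const 5))

theorem K1_primrec : Primrec₂ K1 :=
  Primrec.ite (Primrec.eq.comp Primrec.snd (xs_primrec.comp Primrec.fst)) (Primrec.const 1)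
    (K0_primrec.comp Primrec.snd)

theorem dT_primrec : Primrec dT :=
  Primrec.option_getD.comp Primrec.decode (Primrec.const _)

theorem ix_primrec : Primrec ix := by
  refine Primrec.ite (Primrec.eq.comp ?_ ?_) (Primrec.const 0) (Primrec.const 2)
  · exact Primrec.list_head?.comp (Primrec.fst.comp (Primrec.snd.comp dT_primrec))
  · exact Primrec.list_head?.comp (Primrec.fst.comp (Primrec.snd.comp (Primrec.snd.comp
      dT_primrec)))

theorem chk_primrec {α : Type} [Primcodable α] {c : α → Code} {y : α → Str} {k : α → ℕ}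
    {p : α → Str} (j : ℕ) (hc : Primrec c) (hy : Primrec y) (hk : Primrec k) (hp : Primrec p) :
    PrimrecPred (fun a => Chk (c a) (y a) (k a) (p a) j) := by
  refine PrimrecPred.and ?_ ?_
  · exact Primrec.eq.comp (Primrec.list_length.comp hp) (Primrec.const 3)
  · refine Primrec.eq.comp ?_ (Primrec.const (some (encode (xs j))))
    exact Nat.Partrec.Code.primrec_evaln.comp ((hk.pair hc).pair (Primrec.encode.comp (hp.pair hy)))

theorem G_primrec : PrimrecPred (fun q : Str × ℕ => G q.1 q.2) := by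
  have ho : Primrec (fun q : Str × ℕ => dT q.2) := dT_primrec.comp Primrec.snd
  have hc : Primrec (fun q : Str × ℕ => ofNat Code q.1.length) :=
    (Primrec.ofNat _).comp (Primrec.list_length.comp Primrec.fst)
  have hk := Primrec.fst.comp ho
  have h1 := Primrec.fst.comp (Primrec.snd.comp ho)
  have h2 := Primrec.fst.comp (Primrec.snd.comp (Primrec.snd.comp ho))
  have h3 := Primrec.fst.comp (Primrec.snd.comp (Primrec.snd.comp (Primrec.snd.comp ho)))
  have h4 := Primrec.snd.comp (Primrec.snd.comp (Primrec.snd.comp (Primrec.snd.comp ho)))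
  exact (chk_primrec 0 hc Primrec.fst hk h1).and ((chk_primrec 1 hc Primrec.fst hk h2).and
    ((chk_primrec 2 hc Primrec.fst hk h3).and (chk_primrec 3 hc Primrec.fst hk h4)))

seal G in
theorem stp_primrec : Primrec₂ stp := by
  have hG : PrimrecPred (fun q : Str × ℕ × Option ℕ => G q.1 q.2.1) :=
    PrimrecPred.comp (p := fun q : Str × ℕ => G q.1 q.2) (f := fun q : Str × ℕ × Option ℕ =>
      (q.1, q.2.1)) G_primrec (Primrec.fst.pair (Primrec.fst.comp Primrec.snd))
  have hs : PrimrecPred (fun q : Str × ℕ × Option ℕ => q.2.2.isSome = true) :=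
    Primrec.eq.comp (Primrec.option_isSome.comp (Primrec.snd.comp Primrec.snd)) (Primrec.const true)
  have h1 : Primrec (fun q : Str × ℕ × Option ℕ => q.2.2) := Primrec.snd.comp Primrec.snd
  have h2 : Primrec (fun q : Str × ℕ × Option ℕ => some q.2.1) :=
    Primrec.option_some.comp (Primrec.fst.comp Primrec.snd)
  have h3 : Primrec (fun q : Str × ℕ × Option ℕ => if G q.1 q.2.1 then some q.2.1 else none) :=
    Primrec.ite hG h2 (Primrec.const none)
  exact Primrec.ite hs h1 h3

theorem s_primrec : Primrec₂ s :=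
  Primrec.nat_rec (Primrec.const none) stp_primrec

theorem Kn_primrec : Primrec (fun q : ℕ × Str × Str => Kn q.1 q.2.1 q.2.2) := by
  have hs : Primrec (fun q : ℕ × Str × Str => s q.2.2 q.1) :=
    s_primrec.comp (Primrec.snd.comp Primrec.snd) Primrec.fst
  have hx : Primrec (fun q : ℕ × Str × Str => q.2.1) := Primrec.fst.comp Primrec.snd
  refine Primrec.ite (Primrec.eq.comp (Primrec.option_isSome.comp hs) (Primrec.const true)) ?_ ?_
  · exact K1_primrec.comp (ix_primrec.comp (Primrec.option_getD.comp hs (Primrec.const 0))) hx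
  · exact K0_primrec.comp hx

/-! ### the sum -/

theorem tail_sum : ∑' x : Str, (2⁻¹ : ℝ≥0∞) ^ (encode x + 5) ≤ (2⁻¹ : ℝ≥0∞) ^ 5 * 2 := by
  calc ∑' x : Str, (2⁻¹ : ℝ≥0∞) ^ (encode x + 5) ≤ ∑' n : ℕ, (2⁻¹ : ℝ≥0∞) ^ (n + 5) :=
        ENNReal.tsum_comp_le_tsum_of_injective encode_injective (fun n => (2⁻¹ : ℝ≥0∞) ^ (n + 5))
    _ = (2⁻¹ : ℝ≥0∞) ^ 5 * 2 := by
      simp_rw [pow_add, mul_comm _ ((2⁻¹ : ℝ≥0∞) ^ 5)]
      rw [ENNReal.tsum_mul_left, ENNReal.tsum_geometric, ENNReal.one_sub_inv_two, inv_inv]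

theorem sum_K1_le {i : ℕ} (hi : i = 0 ∨ i = 2) : ∑' x : Str, (2⁻¹ : ℝ≥0∞) ^ (K1 i x) ≤ 1 := by
  have hle : ∀ x : Str, (2⁻¹ : ℝ≥0∞) ^ (K1 i x) ≤
      (∑ j ∈ Finset.range 4, if x = xs j then (2⁻¹ : ℝ≥0∞) ^ (if j = i then 1 else 3) else 0) +
        (2⁻¹ : ℝ≥0∞) ^ (encode x + 5) := by
    intro x
    have key : ∀ j, j < 4 → x = xs j → (2⁻¹ : ℝ≥0∞) ^ (K1 i x) ≤
        (∑ j ∈ Finset.range 4, if x = xs j then (2⁻¹ : ℝ≥0∞) ^ (if j = i then 1 else 3) else 0) +
        (2⁻¹ : ℝ≥0∞) ^ (encode x + 5) := by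
      intro j hj hx
      refine le_trans ?_ le_self_add
      refine le_trans ?_ (Finset.single_le_sum (fun _ _ => bot_le) (Finset.mem_range.2 hj))
      rw [if_pos hx, K1]
      by_cases hji : j = i
      · subst hji
        rw [if_pos hx, if_pos rfl]
      · rw [if_neg (fun h => hji (xs_injective (hx.symm.trans h))), if_neg hji, K0, if_pos]
        rcases (by omega : j = 0 ∨ j = 1 ∨ j = 2 ∨ j = 3) with h | h | h | h <;> subst h <;> tauto
    by_cases h : x = xs 0 ∨ x = xs 1 ∨ x = xs 2 ∨ x = xs 3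
    · rcases h with h | h | h | h
      · exact key 0 (by norm_num) h
      · exact key 1 (by norm_num) h
      · exact key 2 (by norm_num) h
      · exact key 3 (by norm_num) h
    · refine le_trans ?_ le_add_self
      rw [K1, if_neg, K0, if_neg h]
      rcases hi with rfl | rfl <;> tauto
  calc ∑' x : Str, (2⁻¹ : ℝ≥0∞) ^ (K1 i x)
      ≤ ∑' x : Str, ((∑ j ∈ Finset.range 4,
        if x = xs j then (2⁻¹ : ℝ≥0∞) ^ (if j = i then 1 else 3) else 0) +
        (2⁻¹ : ℝ≥0∞) ^ (encode x + 5)) := ENNReal.tsum_le_tsum hle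
    _ = (∑ j ∈ Finset.range 4, (2⁻¹ : ℝ≥0∞) ^ (if j = i then 1 else 3)) +
        ∑' x : Str, (2⁻¹ : ℝ≥0∞) ^ (encode x + 5) := by
      rw [ENNReal.tsum_add, Summable.tsum_finsetSum (fun _ _ => ENNReal.summable)]
      congr 1
      refine Finset.sum_congr rfl fun j _ => ?_
      rw [tsum_ite_eq]
    _ ≤ (∑ j ∈ Finset.range 4, (2⁻¹ : ℝ≥0∞) ^ (if j = i then 1 else 3)) +
        (2⁻¹ : ℝ≥0∞) ^ 5 * 2 := by
      gcongr
      exact tail_sum
    _ ≤ 1 := by
      have h2 : (2⁻¹ : ℝ≥0∞) = ((2⁻¹ : NNReal) : ℝ≥0∞) := by simp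
      rw [h2]
      have h3 : (∑ j ∈ Finset.range 4, (2⁻¹ : NNReal) ^ (if j = i then 1 else 3)) +
          (2⁻¹ : NNReal) ^ 5 * 2 ≤ 1 := by
        rw [← NNReal.coe_le_coe]
        push_cast
        rcases hi with rfl | rfl <;> norm_num [Finset.sum_range_succ]
      exact_mod_cast h3

theorem sum_K (y : Str) : ∑' x : Str, (2⁻¹ : ℝ≥0∞) ^ (K x y) ≤ 1 := by
  classical
  have hle : ∀ (i : ℕ) (x : Str), (2⁻¹ : ℝ≥0∞) ^ (K0 x) ≤ (2⁻¹ : ℝ≥0∞) ^ (K1 i x) := fun i n =>
    pow_le_pow_of_le_one bot_le (ENNReal.inv_le_one.2 (by norm_num)) (K1_le i n)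
  obtain ⟨i, hi, h⟩ : ∃ i, (i = 0 ∨ i = 2) ∧ ∀ x, (2⁻¹ : ℝ≥0∞) ^ (K x y) ≤
      (2⁻¹ : ℝ≥0∞) ^ (K1 i x) := by
    by_cases h : ∃ m, G y m
    · refine ⟨ix (Nat.find h), ?_, fun x => ?_⟩
      · unfold ix
        split_ifs
        · exact Or.inl rfl
        · exact Or.inr rfl
      · unfold K
        rw [dif_pos h]
    · refine ⟨0, Or.inl rfl, fun x => ?_⟩
      unfold K
      rw [dif_neg h]
      exact hle _ _
  exact (ENNReal.tsum_le_tsum h).trans (sum_K1_le hi)

theorem admissible_K : Admissible K :=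
  ⟨⟨Kn, Kn_primrec.to_comp, Kn_anti, Kn_lim⟩, sum_K⟩

/-! ### no algorithm realises the function -/

/-- comparable programs have the same result -/
def Cmp (U : Str × Str →. Str) : Prop :=
  ∀ y p q x x', (p <+: q ∨ q <+: p) → x ∈ U (p, y) → x' ∈ U (q, y) → x = x'

theorem PrefixFree.cmp {U : Str × Str →. Str} (h : PrefixFree U) : Cmp U := by
  intro y p q x x' hpq hx hx'
  by_cases e : p = q
  · subst e
    exact Part.mem_unique hx hx'
  · rcases hpq with hpq | hpq
    · exact absurd ⟨Part.dom_iff_mem.2 ⟨x, hx⟩, Part.dom_iff_mem.2 ⟨x', hx'⟩⟩ (h y p q e hpq)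
    · exact absurd ⟨Part.dom_iff_mem.2 ⟨x', hx'⟩, Part.dom_iff_mem.2 ⟨x, hx⟩⟩
        (h y q p (fun h => e h.symm) hpq)

theorem PrefixStable.cmp {U : Str × Str →. Str} (h : PrefixStable U) : Cmp U := by
  intro y p q x x' hpq hx hx'
  rcases hpq with hpq | hpq
  · exact Part.mem_unique (h y p q x hpq hx) hx'
  · exact Part.mem_unique hx (h y q p x' hpq hx')

theorem exists_program {U : Str × Str →. Str} {x y : Str} {k : ℕ} (h : CU U x y = k) :
    ∃ p : Str, x ∈ U (p, y) ∧ p.length = k := by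
  by_contra hc
  push Not at hc
  have h1 : ((k + 1 : ℕ) : ℕ∞) ≤ CU U x y := by
    refine le_iInf₂ fun p hp => ?_
    have h2 : CU U x y ≤ p.length := iInf₂_le p hp
    rw [h] at h2
    have h3 : k ≤ p.length := by exact_mod_cast h2
    have h4 := hc p hp
    exact_mod_cast (by omega : k + 1 ≤ p.length)
  rw [h] at h1
  have : k + 1 ≤ k := by exact_mod_cast h1
  omega

/-- four different pairs of bits are all the pairs of bits -/
theorem all_pairs (P0 P1 P2 P3 P : Bool × Bool) (h01 : P0 ≠ P1) (h02 : P0 ≠ P2) (h03 : P0 ≠ P3)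
    (h12 : P1 ≠ P2) (h13 : P1 ≠ P3) (h23 : P2 ≠ P3) : P = P0 ∨ P = P1 ∨ P = P2 ∨ P = P3 := by
  have h : ({P0, P1, P2, P3} : Finset (Bool × Bool)) = Finset.univ := by
    apply Finset.eq_univ_of_card
    rw [Finset.card_insert_of_notMem (by simp [h01, h02, h03]),
      Finset.card_insert_of_notMem (by simp [h12, h13]),
      Finset.card_insert_of_notMem (by simp [h23]), Finset.card_singleton]
    rfl
  have := Finset.mem_univ P
  rw [← h] at this
  simpa using this

theorem len3 {p : Str} (h : p.length = 3) : ∃ a b c, p = [a, b, c] := by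
  match p, h with
  | [a, b, c], _ => exact ⟨a, b, c, rfl⟩

/-- the combinatorial core -/
theorem core {U : Str × Str →. Str} (hU : Cmp U) (y : Str) (x : ℕ → Str)
    (hx : Function.Injective x) {p0 p1 p2 p3 q r : Str} (h0 : x 0 ∈ U (p0, y))
    (h1 : x 1 ∈ U (p1, y)) (h2 : x 2 ∈ U (p2, y)) (h3 : x 3 ∈ U (p3, y)) (l0 : p0.length = 3)
    (l1 : p1.length = 3) (l2 : p2.length = 3) (l3 : p3.length = 3) (lq : q.length = 1)
    (hq : x (if p0.head? = p1.head? then 0 else 2) ∈ U (q, y)) (hr : x 4 ∈ U (r, y)) : False := by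
  obtain ⟨a0, b0, c0, rfl⟩ := len3 l0
  obtain ⟨a1, b1, c1, rfl⟩ := len3 l1
  obtain ⟨a2, b2, c2, rfl⟩ := len3 l2
  obtain ⟨a3, b3, c3, rfl⟩ := len3 l3
  obtain ⟨d, rfl⟩ := List.length_eq_one_iff.1 lq
  have key : ∀ {i j : ℕ} {p p' : Str}, i ≠ j → x i ∈ U (p, y) → x j ∈ U (p', y) → ¬ p <+: p' :=
    fun hij hp hp' h => hij (hx (hU y _ _ _ _ (Or.inl h) hp hp'))
  have hd : ∀ {i : ℕ} {a b c : Bool}, x i ∈ U ([a, b, c], y) → ∀ {j : ℕ}, x j ∈ U ([d], y) →
      j ≠ i → a = !d := by
    intro i a b c hi j hj hij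
    by_contra hne
    have : a = d := by revert hne; cases a <;> cases d <;> simp
    subst this
    exact key hij hj hi ⟨[b, c], rfl⟩
  by_cases h01 : a0 = a1
  · subst h01
    rw [if_pos (by rfl)] at hq
    have e1 := hd h1 hq (by norm_num)
    have e2 := hd h2 hq (by norm_num)
    have e3 := hd h3 hq (by norm_num)
    subst e1
    subst e2
    subst e3
    have ne : ∀ {i j : ℕ} {b c b' c' : Bool}, i ≠ j → x i ∈ U ([!d, b, c], y) →
        x j ∈ U ([!d, b', c'], y) → (b, c) ≠ (b', c') := by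
      intro i j b c b' c' hij hi hj e
      obtain ⟨rfl, rfl⟩ := Prod.mk.inj e
      exact key hij hi hj List.prefix_rfl
    have hall := fun b c => all_pairs (b0, c0) (b1, c1) (b2, c2) (b3, c3) (b, c)
      (ne (by norm_num) h0 h1)
      (ne (by norm_num) h0 h2) (ne (by norm_num) h0 h3) (ne (by norm_num) h1 h2)
      (ne (by norm_num) h1 h3) (ne (by norm_num) h2 h3)
    rcases r with _ | ⟨a, r⟩
    · exact key (by norm_num) hr h0 (List.nil_prefix)
    by_cases had : a = d
    · subst had
      exact key (by norm_num) hq hr ⟨r, rfl⟩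
    have had' : a = !d := by revert had; cases a <;> cases d <;> simp
    subst had'
    rcases r with _ | ⟨b, r⟩
    · exact key (by norm_num) hr h0 ⟨[b0, c0], rfl⟩
    rcases r with _ | ⟨c, r⟩
    · rcases hall b false with h | h | h | h <;> obtain ⟨rfl, -⟩ := Prod.mk.inj h
      · exact key (by norm_num) hr h0 ⟨[c0], rfl⟩
      · exact key (by norm_num) hr h1 ⟨[c1], rfl⟩
      · exact key (by norm_num) hr h2 ⟨[c2], rfl⟩
      · exact key (by norm_num) hr h3 ⟨[c3], rfl⟩
    · rcases hall b c with h | h | h | h <;> obtain ⟨rfl, rfl⟩ := Prod.mk.inj h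
      · exact key (by norm_num) h0 hr ⟨r, rfl⟩
      · exact key (by norm_num) h1 hr ⟨r, rfl⟩
      · exact key (by norm_num) h2 hr ⟨r, rfl⟩
      · exact key (by norm_num) h3 hr ⟨r, rfl⟩
  · rw [if_neg (by simpa using h01)] at hq
    have e0 := hd h0 hq (by norm_num)
    have e1 := hd h1 hq (by norm_num)
    exact h01 (e0.trans e1.symm)

theorem not_realised (U : Str × Str →. Str) (hU : Partrec U) (hC : Cmp U) :
    ∃ x y, CU U x y ≠ K x y := by
  by_contra hc
  push Not at hc
  obtain ⟨c, hcode⟩ := Nat.Partrec.Code.exists_code.1 hU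
  have hev : ∀ p y : Str, eval c (encode (p, y)) = (U (p, y)).map encode := by
    intro p y
    rw [hcode]
    simp
  let y : Str := List.replicate (encode c) true
  have hy : ofNat Code y.length = c := by
    simp only [y, List.length_replicate, Denumerable.ofNat_encode]
  have mem : ∀ (p : Str) (j : ℕ), encode (xs j) ∈ eval c (encode (p, y)) → xs j ∈ U (p, y) := by
    intro p j hj
    rw [hev, Part.mem_map_iff] at hj
    obtain ⟨z, hz, e⟩ := hj
    rwa [encode_injective e] at hz
  have mem' : ∀ (p : Str) (j : ℕ), xs j ∈ U (p, y) → encode (xs j) ∈ eval c (encode (p, y)) := by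
    intro p j hj
    rw [hev, Part.mem_map_iff]
    exact ⟨xs j, hj, rfl⟩
  classical
  by_cases h : ∃ m, G y m
  · have hG := Nat.find_spec h
    have hK : ∀ x, K x y = K1 (ix (Nat.find h)) x := by
      intro x
      unfold K
      rw [dif_pos h]
    set m := Nat.find h with hm
    unfold G at hG
    rw [hy] at hG
    have hchk : ∀ (p : Str) (j : ℕ), Chk c y (dT m).1 p j →
        xs j ∈ U (p, y) ∧ p.length = 3 := by
      intro p j hp
      exact ⟨mem p j (evaln_sound (Option.mem_def.2 hp.2)), hp.1⟩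
    obtain ⟨g0, g1, g2, g3⟩ := hG
    obtain ⟨g0, l0⟩ := hchk _ _ g0
    obtain ⟨g1, l1⟩ := hchk _ _ g1
    obtain ⟨g2, l2⟩ := hchk _ _ g2
    obtain ⟨g3, l3⟩ := hchk _ _ g3
    obtain ⟨q, hq, lq⟩ := exists_program (hc (xs (ix m)) y)
    rw [hK, K1, if_pos rfl] at lq
    obtain ⟨r, hr, -⟩ := exists_program (hc (xs 4) y)
    exact core hC y xs xs_injective g0 g1 g2 g3 l0 l1 l2 l3 lq hq hr
  · have hK : ∀ j, j < 4 → K (xs j) y = 3 := by
      intro j hj
      unfold K
      rw [dif_neg h, K0, if_pos]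
      rcases (by omega : j = 0 ∨ j = 1 ∨ j = 2 ∨ j = 3) with h | h | h | h <;> subst h <;> tauto
    have hp : ∀ j, j < 4 → ∃ (p : Str) (k : ℕ), p.length = 3 ∧
        encode (xs j) ∈ evaln k c (encode (p, y)) := by
      intro j hj
      obtain ⟨p, hp, lp⟩ := exists_program (hc (xs j) y)
      rw [hK j hj] at lp
      obtain ⟨k, hk⟩ := evaln_complete.1 (mem' p j hp)
      exact ⟨p, k, lp, hk⟩
    obtain ⟨p0, k0, l0, e0⟩ := hp 0 (by norm_num)
    obtain ⟨p1, k1, l1, e1⟩ := hp 1 (by norm_num)
    obtain ⟨p2, k2, l2, e2⟩ := hp 2 (by norm_num)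
    obtain ⟨p3, k3, l3, e3⟩ := hp 3 (by norm_num)
    let k := max (max k0 k1) (max k2 k3)
    refine h ⟨encode ((k, p0, p1, p2, p3) : ℕ × Tup), ?_⟩
    have hd : dT (encode ((k, p0, p1, p2, p3) : ℕ × Tup)) = (k, p0, p1, p2, p3) := by
      unfold dT
      rw [encodek]
      rfl
    unfold G
    rw [hy, hd]
    exact ⟨⟨l0, Option.mem_def.1 (evaln_mono (by simp [k]) e0)⟩,
      ⟨l1, Option.mem_def.1 (evaln_mono (by simp [k]) e1)⟩,
      ⟨l2, Option.mem_def.1 (evaln_mono (by simp [k]) e2)⟩,
      ⟨l3, Option.mem_def.1 (evaln_mono (by simp [k]) e3)⟩⟩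

/-- Negative answers to (a) and (b), by one function `K`. -/
theorem result : ∃ K : Str → Str → ℕ, Admissible K ∧
    (∀ U : Str × Str →. Str, Partrec U → PrefixFree U → ∃ x y, CU U x y ≠ K x y) ∧
    (∀ U : Str × Str →. Str, Partrec U → PrefixStable U → ∃ x y, CU U x y ≠ K x y) :=
  ⟨K, admissible_K, fun U h1 h2 => not_realised U h1 h2.cmp,
    fun U h1 h2 => not_realised U h1 h2.cmp⟩

end Pool.Agent.Results.MP_6b7d8e_lc.NoExactConditional
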